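import Pool.Agent.Helper56.RZ.GoalsD

/-!
# Project RZ3, packet AV: averaging over many scales
-/

set_option autoImplicit false

open Set Filter Topology MeasureTheory

open scoped ContDiff

open Pool.Agent.Helper56.RZ

namespace Pool.Agent.Helper23.RZ

/-- the second difference quotient of a function with a Taylor expansion -/
theorem secdiff (f : ℝ → ℝ) (α β γ B t0 : ℝ) (ht0 : 0 < t0)
    (h : ∀ t, |t| ≤ t0 → |f t - (α + t * β) - γ * t ^ 2| ≤ B * |t| ^ 3) :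
    Tendsto (fun t : ℝ => (f t + f (-t) - 2 * α) / (2 * t ^ 2)) (𝓝[≠] 0) (𝓝 γ) := by
  have h1 : ∀ᶠ t : ℝ in 𝓝[≠] 0, |(f t + f (-t) - 2 * α) / (2 * t ^ 2) - γ| ≤ |B| * |t| := by
    have h2 : ∀ᶠ t : ℝ in 𝓝[≠] (0 : ℝ), |t| ≤ t0 := by
      have h3 : ∀ᶠ t : ℝ in 𝓝 (0 : ℝ), |t| < t0 := by
        have h4 : Tendsto (fun t : ℝ => |t|) (𝓝 0) (𝓝 |(0 : ℝ)|) := continuous_abs.tendsto 0
        rw [abs_zero] at h4
        exact h4.eventually (gt_mem_nhds ht0)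
      exact (h3.filter_mono nhdsWithin_le_nhds).mono fun t ht => ht.le
    filter_upwards [h2, self_mem_nhdsWithin] with t ht htne
    have htne' : t ≠ 0 := htne
    have e1 := h t ht
    have e2 := h (-t) (by rwa [abs_neg])
    rw [abs_neg] at e2
    have hpos : 0 < 2 * t ^ 2 := by positivity
    have e3 : (f t + f (-t) - 2 * α) / (2 * t ^ 2) - γ =
        ((f t - (α + t * β) - γ * t ^ 2) + (f (-t) - (α + -t * β) - γ * (-t) ^ 2)) /
          (2 * t ^ 2) := by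
      field_simp
      ring
    rw [e3, abs_div, abs_of_pos hpos, div_le_iff₀ hpos]
    have h5 : |t| ^ 3 = |t| * t ^ 2 := by rw [pow_succ, sq_abs]; ring
    have h6 : B * |t| ^ 3 ≤ |B| * |t| ^ 3 :=
      mul_le_mul_of_nonneg_right (le_abs_self B) (by positivity)
    calc |(f t - (α + t * β) - γ * t ^ 2) + (f (-t) - (α + -t * β) - γ * (-t) ^ 2)|
        ≤ |f t - (α + t * β) - γ * t ^ 2| + |f (-t) - (α + -t * β) - γ * (-t) ^ 2| :=
          abs_add_le _ _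
      _ ≤ |B| * |t| ^ 3 + |B| * |t| ^ 3 := add_le_add (e1.trans h6) (e2.trans h6)
      _ = |B| * |t| * (2 * t ^ 2) := by rw [h5]; ring
  rw [tendsto_iff_norm_sub_tendsto_zero]
  have h7 : Tendsto (fun t : ℝ => |B| * |t|) (𝓝[≠] 0) (𝓝 0) := by
    have h8 : Tendsto (fun t : ℝ => |B| * |t|) (𝓝 0) (𝓝 (|B| * |(0 : ℝ)|)) :=
      (continuous_const.mul continuous_abs).tendsto 0
    rw [abs_zero, mul_zero] at h8
    exact h8.mono_left nhdsWithin_le_nhds
  refine squeeze_zero' (Eventually.of_forall fun t => norm_nonneg _) ?_ h7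
  exact h1.mono fun t ht => by rwa [Real.norm_eq_abs]

theorem alpha_eq (f : ℝ → ℝ) (α β γ B t0 : ℝ) (ht0 : 0 < t0)
    (h : ∀ t, |t| ≤ t0 → |f t - (α + t * β) - γ * t ^ 2| ≤ B * |t| ^ 3) : α = f 0 := by
  have h1 := h 0 (by rw [abs_zero]; exact ht0.le)
  rw [abs_zero] at h1
  have h2 : |f 0 - (α + 0 * β) - γ * 0 ^ 2| ≤ 0 := by
    refine h1.trans (le_of_eq ?_)
    ring
  have h3 := abs_nonpos_iff.mp h2
  linarith [h3]

/-- identification of the quadratic coefficient -/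
theorem coeff_lim (f : ℝ → ℝ) (α β γ B t0 g : ℝ) (ht0 : 0 < t0)
    (h : ∀ t, |t| ≤ t0 → |f t - (α + t * β) - γ * t ^ 2| ≤ B * |t| ^ 3)
    (hg : Tendsto (fun t : ℝ => f t / t ^ 2) (𝓝[≠] 0) (𝓝 g)) : γ = g := by
  have h3 := secdiff f α β γ B t0 ht0 h
  have hneg : Tendsto (fun t : ℝ => -t) (𝓝[≠] 0) (𝓝[≠] 0) := by
    refine tendsto_nhdsWithin_iff.mpr ⟨?_, ?_⟩
    · have h8 : Tendsto (fun t : ℝ => -t) (𝓝 0) (𝓝 (-(0 : ℝ))) := continuous_neg.tendsto 0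
      rw [neg_zero] at h8
      exact h8.mono_left nhdsWithin_le_nhds
    · filter_upwards [self_mem_nhdsWithin] with t ht
      have ht' : t ≠ 0 := ht
      exact (neg_ne_zero.mpr ht' : -t ≠ 0)
  have h2 : Tendsto (fun t : ℝ => f (-t) / (-t) ^ 2) (𝓝[≠] 0) (𝓝 g) := hg.comp hneg
  have h4 : Tendsto (fun t : ℝ => α / t ^ 2) (𝓝[≠] 0) (𝓝 ((g + g) / 2 - γ)) := by
    refine (((hg.add h2).div_const 2).sub h3).congr' ?_
    filter_upwards [self_mem_nhdsWithin] with t ht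
    have ht' : t ≠ 0 := ht
    field_simp
    ring
  have h5 : Tendsto (fun t : ℝ => t ^ 2) (𝓝[≠] (0 : ℝ)) (𝓝 0) := by
    have h8 : Tendsto (fun t : ℝ => t ^ 2) (𝓝 0) (𝓝 ((0 : ℝ) ^ 2)) :=
      (continuous_pow 2).tendsto 0
    rw [zero_pow two_ne_zero] at h8
    exact h8.mono_left nhdsWithin_le_nhds
  have h6 : Tendsto (fun _ : ℝ => α) (𝓝[≠] (0 : ℝ)) (𝓝 (((g + g) / 2 - γ) * 0)) := by
    refine (h4.mul h5).congr' ?_
    filter_upwards [self_mem_nhdsWithin] with t ht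
    have ht' : t ≠ 0 := ht
    field_simp
  have h7 : α = 0 := by
    have h8 := tendsto_nhds_unique h6 tendsto_const_nhds
    linarith [h8]
  have h9 : Tendsto (fun _ : ℝ => (0 : ℝ)) (𝓝[≠] (0 : ℝ)) (𝓝 ((g + g) / 2 - γ)) := by
    refine h4.congr ?_
    intro t
    rw [h7, zero_div]
  have h10 := tendsto_nhds_unique h9 tendsto_const_nhds
  linarith [h10]

/-- uniqueness of the quadratic coefficient -/
theorem coeff_unique (f : ℝ → ℝ) (c α β γ B α' β' γ' B' t0 t0' : ℝ) (ht0 : 0 < t0)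
    (ht0' : 0 < t0')
    (h : ∀ t, |t| ≤ t0 → |f t - (α + t * β) - γ * t ^ 2| ≤ B * |t| ^ 3)
    (h' : ∀ t, |t| ≤ t0' → |c * f t - (α' + t * β') - γ' * t ^ 2| ≤ B' * |t| ^ 3) :
    γ' = c * γ := by
  have h1 := secdiff f α β γ B t0 ht0 h
  have h2 := secdiff (fun t => c * f t) α' β' γ' B' t0' ht0' h'
  have h3 := alpha_eq f α β γ B t0 ht0 h
  have h4 := alpha_eq (fun t => c * f t) α' β' γ' B' t0' ht0' h'
  refine tendsto_nhds_unique h2 ((h1.const_mul c).congr ?_)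
  intro t
  rw [h4, h3]
  ring

/-- evaluation at ρ = 0 -/
theorem at_zero (m : ℕ) (hm : 1 ≤ m) (k : ℝ → ℝ → ℝ) (α β : ℕ → ℝ) (γ B t0 : ℝ)
    (h : ∀ ρ t : ℝ, |ρ| ≤ 1 → |t| ≤ t0 →
      |k ρ t - ∑ j ∈ Finset.range m, ρ ^ j * (α j + t * β j) - γ * t ^ 2| ≤
        B * (|ρ| ^ m + |ρ| * t ^ 2 + |t| ^ 3)) :
    ∀ t, |t| ≤ t0 → |k 0 t - (α 0 + t * β 0) - γ * t ^ 2| ≤ B * |t| ^ 3 := by
  intro t ht
  have h1 := h 0 t (by rw [abs_zero]; exact zero_le_one) ht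
  have h2 : ∑ j ∈ Finset.range m, (0 : ℝ) ^ j * (α j + t * β j) = α 0 + t * β 0 := by
    rw [Finset.sum_eq_single 0]
    · rw [pow_zero, one_mul]
    · intro j _ hj
      rw [zero_pow hj, zero_mul]
    · intro h0
      exact absurd (Finset.mem_range.mpr (by omega)) h0
  rw [h2, abs_zero, zero_pow (by omega), zero_mul, zero_add, zero_add] at h1
  exact h1

/-- symmetrisation of the expansion -/
theorem symm_exp (m : ℕ) (k : ℝ → ℝ → ℝ) (α β : ℕ → ℝ) (γ B t0 : ℝ)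
    (h : ∀ ρ t : ℝ, |ρ| ≤ 1 → |t| ≤ t0 →
      |k ρ t - ∑ j ∈ Finset.range m, ρ ^ j * (α j + t * β j) - γ * t ^ 2| ≤
        B * (|ρ| ^ m + |ρ| * t ^ 2 + |t| ^ 3)) :
    ∀ ρ t : ℝ, 0 ≤ ρ → ρ ≤ 1 → 0 ≤ t → t ≤ t0 →
      |(k ρ t + k (-ρ) (-t)) / 2 - ∑ j ∈ Finset.range m,
          ρ ^ j * (α j * (1 + (-1) ^ j) / 2 + t * (β j * (1 - (-1) ^ j) / 2)) - γ * t ^ 2| ≤
        B * (ρ ^ m + ρ * t ^ 2 + t ^ 3) := by
  intro ρ t hρ hρ1 ht ht0
  have e1 := h ρ t (by rwa [abs_of_nonneg hρ]) (by rwa [abs_of_nonneg ht])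
  have e2 := h (-ρ) (-t) (by rwa [abs_neg, abs_of_nonneg hρ]) (by rwa [abs_neg, abs_of_nonneg ht])
  rw [abs_neg, abs_neg] at e2
  rw [abs_of_nonneg hρ, abs_of_nonneg ht] at e1 e2
  have h2 : ∑ j ∈ Finset.range m,
          ρ ^ j * (α j * (1 + (-1) ^ j) / 2 + t * (β j * (1 - (-1) ^ j) / 2)) =
      (∑ j ∈ Finset.range m, ρ ^ j * (α j + t * β j) +
        ∑ j ∈ Finset.range m, (-ρ) ^ j * (α j + -t * β j)) / 2 := by
    rw [← Finset.sum_add_distrib, Finset.sum_div]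
    refine Finset.sum_congr rfl ?_
    intro j _
    rw [neg_pow ρ j]
    ring
  rw [h2]
  set A := ∑ j ∈ Finset.range m, ρ ^ j * (α j + t * β j)
  set A' := ∑ j ∈ Finset.range m, (-ρ) ^ j * (α j + -t * β j)
  have h3 : (k ρ t + k (-ρ) (-t)) / 2 - (A + A') / 2 - γ * t ^ 2 =
      ((k ρ t - A - γ * t ^ 2) + (k (-ρ) (-t) - A' - γ * (-t) ^ 2)) / 2 := by ring
  rw [h3, abs_div, abs_two]
  have h4 : B * (ρ ^ m + ρ * (-t) ^ 2 + t ^ 3) = B * (ρ ^ m + ρ * t ^ 2 + t ^ 3) := by ring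
  rw [h4] at e2
  have h5 := abs_add_le (k ρ t - A - γ * t ^ 2) (k (-ρ) (-t) - A' - γ * (-t) ^ 2)
  linarith [h5, e1, e2]

/-- the set of admissible projections is compact -/
theorem PPcompact {N : ℕ} (p : Fin 3 → End N) (η : ℝ) :
    IsCompact {P : Fin 3 → End N | Proj3 P ∧ ∀ i, ‖P i - p i‖ ≤ η} := by
  have hprop : ProperSpace (Fin 3 → End N) := inferInstance
  refine Metric.isCompact_of_isClosed_isBounded ?_ ?_
  · have h1 : {P : Fin 3 → End N | Proj3 P ∧ ∀ i, ‖P i - p i‖ ≤ η} =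
        (⋂ i, ⋂ j, {P : Fin 3 → End N | P i * P j = if i = j then P i else 0}) ∩
          {P : Fin 3 → End N | P 0 + P 1 + P 2 = 1} ∩
          ⋂ i, {P : Fin 3 → End N | ‖P i - p i‖ ≤ η} := by
      ext P
      simp only [mem_ofPred_eq, mem_inter_iff, mem_iInter]
      constructor
      · rintro ⟨h, h'⟩
        exact ⟨⟨h.proj, h.sum⟩, h'⟩
      · rintro ⟨⟨h, h'⟩, h''⟩
        exact ⟨⟨h, h'⟩, h''⟩
    rw [h1]
    refine IsClosed.inter (IsClosed.inter ?_ ?_) ?_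
    · refine isClosed_iInter fun i => isClosed_iInter fun j => ?_
      by_cases hij : i = j
      · simp only [hij, if_true]
        exact isClosed_eq ((continuous_apply j).mul (continuous_apply j)) (continuous_apply j)
      · simp only [if_neg hij]
        exact isClosed_eq ((continuous_apply i).mul (continuous_apply j)) continuous_const
    · exact isClosed_eq (((continuous_apply 0).add (continuous_apply 1)).add
        (continuous_apply 2)) continuous_const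
    · refine isClosed_iInter fun i => ?_
      exact isClosed_le ((continuous_apply i).sub continuous_const).norm continuous_const
  · refine (Metric.isBounded_closedBall (x := p) (r := |η|)).subset ?_
    rintro P ⟨_, h⟩
    rw [Metric.mem_closedBall, dist_pi_le_iff (abs_nonneg η)]
    intro i
    rw [dist_eq_norm]
    exact (h i).trans (le_abs_self η)

/-- the rotations are uniformly bounded -/
theorem Ha_bound {N : ℕ} {p : Fin 3 → End N} (d : Tw N p) : ∃ K : ℝ, 0 ≤ K ∧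
    ∀ (a : ℝ → ℝ) (t : ℝ) (z : E N), ‖d.Ha a t z‖ ≤ K * ‖z‖ := by
  refine ⟨1 + 2 * (‖d.wc‖ * ‖d.ec‖ + ‖d.wu‖ * ‖d.eu‖) + ‖d.J‖, by positivity, ?_⟩
  intro a t z
  unfold Tw.Ha Tw.rot
  set s := a (t * Tw.be (d.q z))
  have h1 : ‖(Real.cos s - 1) • (d.wc z • d.ec + d.wu z • d.eu)‖ ≤
      2 * ((‖d.wc‖ * ‖z‖) * ‖d.ec‖ + (‖d.wu‖ * ‖z‖) * ‖d.eu‖) := by
    rw [norm_smul]
    refine mul_le_mul ?_ ?_ (norm_nonneg _) (by norm_num)
    · rw [Real.norm_eq_abs, abs_le]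
      constructor <;> linarith [Real.cos_le_one s, Real.neg_one_le_cos s]
    · refine (norm_add_le _ _).trans (add_le_add ?_ ?_)
      · rw [norm_smul]
        exact mul_le_mul_of_nonneg_right (d.wc.le_opNorm z) (norm_nonneg _)
      · rw [norm_smul]
        exact mul_le_mul_of_nonneg_right (d.wu.le_opNorm z) (norm_nonneg _)
  have h2 : ‖Real.sin s • d.J z‖ ≤ ‖d.J‖ * ‖z‖ := by
    rw [norm_smul]
    have h3 : ‖Real.sin s‖ ≤ 1 := by
      rw [Real.norm_eq_abs]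
      exact Real.abs_sin_le_one s
    calc ‖Real.sin s‖ * ‖d.J z‖ ≤ 1 * (‖d.J‖ * ‖z‖) :=
          mul_le_mul h3 (d.J.le_opNorm z) (norm_nonneg _) zero_le_one
      _ = ‖d.J‖ * ‖z‖ := one_mul _
  calc ‖z + (Real.cos s - 1) • (d.wc z • d.ec + d.wu z • d.eu) + Real.sin s • d.J z‖
      ≤ ‖z‖ + ‖(Real.cos s - 1) • (d.wc z • d.ec + d.wu z • d.eu)‖ + ‖Real.sin s • d.J z‖ :=
        (norm_add_le _ _).trans (add_le_add (norm_add_le _ _) le_rfl)
    _ ≤ ‖z‖ + 2 * ((‖d.wc‖ * ‖z‖) * ‖d.ec‖ + (‖d.wu‖ * ‖z‖) * ‖d.eu‖) + ‖d.J‖ * ‖z‖ :=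
        add_le_add (add_le_add le_rfl h1) h2
    _ = _ := by ring

/-- the parameter space -/
abbrev WW (N : ℕ) := E N × E N × (Fin 3 → End N) × (Fin 3 → End N)

/-- a pointwise expansion of the integrand with a lower bound of the main coefficient, by the
coefficients of CB -/
theorem pointwise {N : ℕ} {p : Fin 3 → End N} (d : Tw N p) (m : ℕ) (hm : 1 ≤ m)
    (a : ℕ → ℝ) (C : ℝ)
    (hCB : ∀ (h : ℝ → ℝ → ℝ) (α β : ℕ → ℝ) (γ B t0 : ℝ), 0 ≤ B → β 0 = 0 →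
      (∀ ρ t : ℝ, 0 ≤ ρ → ρ ≤ 1 → 0 ≤ t → t ≤ t0 →
        |h ρ t - ∑ j ∈ Finset.range m, ρ ^ j * (α j + t * β j) - γ * t ^ 2| ≤
          B * (ρ ^ m + ρ * t ^ 2 + t ^ 3)) →
      ∀ ρ t : ℝ, 0 ≤ ρ → 2 ^ m * ρ ≤ 1 → 0 ≤ t → t ≤ t0 →
        |∑ i ∈ Finset.range (m + 1), a i * h (2 ^ i * ρ) (t / 2 ^ i) - γ * t ^ 2| ≤
          C * B * (ρ ^ m + ρ * t ^ 2 + t ^ 3))
    (χ : E N → ℝ) (z s : E N) (P P' : Fin 3 → End N)
    (α β α0 β0 : ℕ → ℝ) (γ B γ0 B0 t0 : ℝ) (ht0 : 0 < t0) (hB : 0 ≤ B)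
    (h1 : ∀ ρ t : ℝ, |ρ| ≤ 1 → |t| ≤ t0 →
      |kk χ d ρ t z s P P' - ∑ j ∈ Finset.range m, ρ ^ j * (α j + t * β j) - γ * t ^ 2| ≤
        B * (|ρ| ^ m + |ρ| * t ^ 2 + |t| ^ 3))
    (h2 : ∀ ρ t : ℝ, |ρ| ≤ 1 → |t| ≤ t0 →
      |kk (fun _ => 1) d ρ t 0 s P P' - ∑ j ∈ Finset.range m, ρ ^ j * (α0 j + t * β0 j) -
        γ0 * t ^ 2| ≤ B0 * (|ρ| ^ m + |ρ| * t ^ 2 + |t| ^ 3))
    (G : ℝ) (hG : G ≤ γ0) (hχ : 0 ≤ χ z) :
    ∀ ρ t : ℝ, 0 ≤ ρ → 2 ^ m * ρ ≤ 1 → 0 ≤ t → t ≤ t0 →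
      χ z * G * t ^ 2 - C * B * (ρ ^ m + ρ * t ^ 2 + t ^ 3) ≤
      ∑ i ∈ Finset.range (m + 1), a i * ((kk χ d (2 ^ i * ρ) (t / 2 ^ i) z s P P' +
        kk χ d (-(2 ^ i * ρ)) (-(t / 2 ^ i)) z s P P') / 2) := by
  intro ρ t hρ hρ1 ht ht1
  have e1 := at_zero m hm (fun ρ t => kk χ d ρ t z s P P') α β γ B t0 h1
  have e2 := at_zero m hm (fun ρ t => kk (fun _ => 1) d ρ t 0 s P P') α0 β0 γ0 B0 t0 h2
  have e3 : γ = χ z * γ0 := by
    refine coeff_unique (fun t => kk (fun _ => 1) d 0 t 0 s P P') (χ z) (α0 0) (β0 0) γ0 B0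
      (α 0) (β 0) γ B t0 t0 ht0 ht0 e2 ?_
    intro t ht
    have e4 := e1 t ht
    have e5 : χ z * kk (fun _ => 1) d 0 t 0 s P P' = kk χ d 0 t z s P P' := by
      simp only [kk, zero_smul, sub_zero, one_mul]
    change |χ z * kk (fun _ => 1) d 0 t 0 s P P' - _ - _| ≤ _
    rw [e5]
    exact e4
  have e6 := symm_exp m (fun ρ t => kk χ d ρ t z s P P') α β γ B t0 h1
  have e7 := hCB (fun ρ t => (kk χ d ρ t z s P P' + kk χ d (-ρ) (-t) z s P P') / 2)
    (fun j => α j * (1 + (-1) ^ j) / 2) (fun j => β j * (1 - (-1) ^ j) / 2) γ B t0 hB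
    (by simp) e6 ρ t hρ hρ1 ht ht1
  have e8 := (abs_le.mp e7).1
  have e9 : χ z * G * t ^ 2 ≤ γ * t ^ 2 := by
    rw [e3]
    exact mul_le_mul_of_nonneg_right (mul_le_mul_of_nonneg_left hG hχ) (sq_nonneg t)
  beta_reduce at e8
  linarith [e8, e9]

/-- integrability of functions which are continuous on a compact product and vanish outside -/
theorem intOn {N : ℕ} (S : Set (E N)) (hS : IsCompact S) (R : ℝ) (f : E N × E N → ℝ)
    (hf : ContinuousOn f (S ×ˢ Metric.closedBall (0 : E N) R))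
    (h0 : ∀ s ∈ S, ∀ z, R < ‖z‖ → f (s, z) = 0) :
    IntegrableOn f (S ×ˢ (univ : Set (E N))) (volume.prod volume) := by
  have h1 : IntegrableOn f (S ×ˢ Metric.closedBall (0 : E N) R) (volume.prod volume) := by
    have h2 : IsCompact (S ×ˢ Metric.closedBall (0 : E N) R) :=
      hS.prod (isCompact_closedBall 0 R)
    have h3 : IntegrableOn f (S ×ˢ Metric.closedBall (0 : E N) R)
        (volume : Measure (E N × E N)) := hf.integrableOn_compact h2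
    exact h3
  refine h1.of_forall_sdiff_eq_zero (hS.isClosed.measurableSet.prod MeasurableSet.univ) ?_
  rintro ⟨s, z⟩ ⟨⟨hs, _⟩, hn⟩
  refine h0 s hs z ?_
  by_contra hz
  exact hn ⟨hs, by rw [mem_closedBall_zero_iff]; exact not_lt.mp hz⟩

/-- the lower bound of the main term, uniformly for projections close to p -/
theorem main_lower {N : ℕ} {p : Fin 3 → End N} (hp : Proj3 p) (d : Tw N p)
    (hSc : IsCompact {s | d.q s ≤ 1}) (η1 : ℝ) (hη1 : 0 < η1)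
    (γ0 : WW N → ℝ)
    (hγ0 : ContinuousOn γ0 (({0} : Set (E N)) ×ˢ {s | d.q s ≤ 1} ×ˢ
      {P : Fin 3 → End N | Proj3 P ∧ ∀ i, ‖P i - p i‖ ≤ η1} ×ˢ
      {P : Fin 3 → End N | Proj3 P ∧ ∀ i, ‖P i - p i‖ ≤ η1}))
    (hg : ∀ s, d.q s ≤ 1 → γ0 (0, s, p, p) = d.g s) (ε : ℝ) (hε : 0 < ε) :
    ∃ η : ℝ, 0 < η ∧ η ≤ η1 ∧ ∀ (s : E N) (P P' : Fin 3 → End N), d.q s ≤ 1 → Proj3 P →
      Proj3 P' → (∀ i, ‖P i - p i‖ ≤ η) → (∀ i, ‖P' i - p i‖ ≤ η) →
      d.g s - ε ≤ γ0 (0, s, P, P') := by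
  have hK : IsCompact (({0} : Set (E N)) ×ˢ {s | d.q s ≤ 1} ×ˢ
      {P : Fin 3 → End N | Proj3 P ∧ ∀ i, ‖P i - p i‖ ≤ η1} ×ˢ
      {P : Fin 3 → End N | Proj3 P ∧ ∀ i, ‖P i - p i‖ ≤ η1}) :=
    isCompact_singleton.prod (hSc.prod ((PPcompact p η1).prod (PPcompact p η1)))
  have hu := Metric.uniformContinuousOn_iff.mp (hK.uniformContinuousOn_of_continuous hγ0) ε hε
  obtain ⟨δ, hδ, hu⟩ := hu
  refine ⟨min η1 (δ / 2), lt_min hη1 (half_pos hδ), min_le_left _ _, ?_⟩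
  intro s P P' hs hP hP' hPη hP'η
  have hpp : p ∈ {P : Fin 3 → End N | Proj3 P ∧ ∀ i, ‖P i - p i‖ ≤ η1} := by
    refine ⟨hp, fun i => ?_⟩
    rw [sub_self, norm_zero]
    exact hη1.le
  have h1 := hu (0, s, P, P')
    ⟨rfl, hs, ⟨hP, fun i => (hPη i).trans (min_le_left _ _)⟩,
      ⟨hP', fun i => (hP'η i).trans (min_le_left _ _)⟩⟩ (0, s, p, p) ⟨rfl, hs, hpp, hpp⟩ (by
      rw [Prod.dist_eq, Prod.dist_eq, Prod.dist_eq]
      simp only [dist_self]
      have h2 : dist P p ≤ δ / 2 := by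
        rw [dist_pi_le_iff (half_pos hδ).le]
        intro i
        rw [dist_eq_norm]
        exact (hPη i).trans (min_le_right _ _)
      have h3 : dist P' p ≤ δ / 2 := by
        rw [dist_pi_le_iff (half_pos hδ).le]
        intro i
        rw [dist_eq_norm]
        exact (hP'η i).trans (min_le_right _ _)
      refine max_lt hδ (max_lt hδ (max_lt ?_ ?_)) <;> linarith)
  rw [hg s hs, Real.dist_eq] at h1
  linarith [(abs_lt.mp h1).1]

/-- PACKET AV -/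
theorem av (hSF : StmtSF) (hGT : StmtGT) (hCB : StmtCB) (hSK : StmtSK) (hGM : StmtGM)
    (hF1 : StmtF1) (hF4 : StmtF4) : StmtAV := by
  intro N p hp d m hm
  obtain ⟨-, hF1'⟩ := hF1 N p hp
  obtain ⟨-, hX, hq, -, -, -, -, c, hc1, hc⟩ := hF1' d
  obtain ⟨-, hgc, -, hgpos⟩ := hF4 N p hp d
  obtain ⟨ηs, hηs, hSF'⟩ := hSF N p hp d
  obtain ⟨a, C, hC, hCB'⟩ := hCB m hm
  obtain ⟨t0, η1, ht0, ht01, hη1, hSK'⟩ := hSK N p hp d
  have hSclosed : IsClosed {s | d.q s ≤ 1} := isClosed_le hq.continuous continuous_const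
  have hsn : ∀ s, d.q s ≤ 1 → ‖s‖ ≤ c := by
    intro s hs
    have h1 := (hc s).1
    have h2 : ‖s‖ ^ 2 ≤ c ^ 2 := by nlinarith [h1, hs, hc1]
    exact (sq_le_sq₀ (norm_nonneg _) (by linarith)).mp h2
  have hSc : IsCompact {s | d.q s ≤ 1} := by
    refine Metric.isCompact_of_isClosed_isBounded hSclosed ?_
    refine (Metric.isBounded_closedBall (x := (0 : E N)) (r := c)).subset ?_
    intro s hs
    rw [mem_closedBall_zero_iff]
    exact hsn s hs
  -- the main coefficient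
  obtain ⟨O1, hO1, hk1, hO1'⟩ := hSK' (fun _ => 1) contDiff_const
  obtain ⟨B0, α0, β0, γ0, hB0, hγ0, hexp0⟩ := hGT (WW N) _ O1
    (({0} : Set (E N)) ×ˢ {s | d.q s ≤ 1} ×ˢ
      {P : Fin 3 → End N | Proj3 P ∧ ∀ i, ‖P i - p i‖ ≤ η1} ×ˢ
      {P : Fin 3 → End N | Proj3 P ∧ ∀ i, ‖P i - p i‖ ≤ η1}) t0 m hO1 hk1
    (isCompact_singleton.prod (hSc.prod ((PPcompact p η1).prod (PPcompact p η1)))) ht0 hm
    (by
      rintro ρ t ⟨z, s, P, P'⟩ hρ ht ⟨_, _, hP, hP'⟩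
      exact hO1' ρ t z s P P' ht hP.1 hP'.1 hP.2 hP'.2)
  have hpp : p ∈ {P : Fin 3 → End N | Proj3 P ∧ ∀ i, ‖P i - p i‖ ≤ η1} := by
    refine ⟨hp, fun i => ?_⟩
    rw [sub_self, norm_zero]
    exact hη1.le
  have hexp0' : ∀ (s : E N) (P P' : Fin 3 → End N),
      d.q s ≤ 1 → P ∈ {P : Fin 3 → End N | Proj3 P ∧ ∀ i, ‖P i - p i‖ ≤ η1} →
      P' ∈ {P : Fin 3 → End N | Proj3 P ∧ ∀ i, ‖P i - p i‖ ≤ η1} → ∀ ρ t : ℝ, |ρ| ≤ 1 →
      |t| ≤ t0 → |kk (fun _ => 1) d ρ t 0 s P P' - ∑ j ∈ Finset.range m,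
        ρ ^ j * (α0 j (0, s, P, P') + t * β0 j (0, s, P, P')) - γ0 (0, s, P, P') * t ^ 2| ≤
        B0 * (|ρ| ^ m + |ρ| * t ^ 2 + |t| ^ 3) :=
    fun s P P' hs hP hP' => hexp0 (0, s, P, P') ⟨rfl, hs, hP, hP'⟩
  clear hexp0
  have hγg : ∀ s, d.q s ≤ 1 → γ0 (0, s, p, p) = d.g s := by
    intro s hs
    have h1 := hexp0' s p p hs hpp hpp
    have h2 := at_zero m hm (fun ρ t => kk (fun _ => 1) d ρ t 0 s p p)
      (fun j => α0 j (0, s, p, p)) (fun j => β0 j (0, s, p, p)) (γ0 (0, s, p, p)) B0 t0 h1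
    refine coeff_lim (fun t => kk (fun _ => 1) d 0 t 0 s p p) _ _ _ B0 t0 (d.g s) ht0 h2 ?_
    refine (hGM N p hp d s).congr ?_
    intro t
    simp only [kk, one_mul]
  set I := ∫ z in {z | d.q z ≤ 1}, d.g z with hI
  set V := (volume {s : E N | d.q s ≤ 1}).toReal with hV
  have hVnn : 0 ≤ V := ENNReal.toReal_nonneg
  have hε : 0 < I / (2 * V + 1) := div_pos hgpos (by linarith)
  obtain ⟨η2, hη2, hη21, hlow⟩ := main_lower hp d hSc η1 hη1 γ0 hγ0 hγg _ hε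
  set ε := I / (2 * V + 1) with hεdef
  refine ⟨a, min ηs η2, lt_min hηs hη2, ?_⟩
  intro χ hχ hχc hχ0
  -- supports
  obtain ⟨K, hK, hKb⟩ := Ha_bound d
  obtain ⟨R0, hR0, hR0'⟩ := hχc.exists_pos_le_norm
  set R := R0 + K * c with hR
  have hKc : 0 ≤ K * c := mul_nonneg hK (by linarith)
  have hvan : ∀ (ρ t : ℝ) (z s : E N) (P P' : Fin 3 → End N), |ρ| ≤ 1 → d.q s ≤ 1 →
      R < ‖z‖ → kk χ d ρ t z s P P' = 0 := by
    intro ρ t z s P P' hρ hs hz
    unfold kk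
    rw [hR0', zero_mul]
    have h1 : ‖ρ • d.Ha th (-t) s‖ ≤ K * c := by
      rw [norm_smul, Real.norm_eq_abs]
      calc |ρ| * ‖d.Ha th (-t) s‖ ≤ 1 * (K * ‖s‖) :=
            mul_le_mul hρ (hKb th (-t) s) (norm_nonneg _) zero_le_one
        _ = K * ‖s‖ := one_mul _
        _ ≤ K * c := mul_le_mul_of_nonneg_left (hsn s hs) hK
    have h2 := norm_sub_norm_le z (ρ • d.Ha th (-t) s)
    linarith [h1, h2]
  -- expansion for χ
  obtain ⟨O2, hO2, hk2, hO2'⟩ := hSK' χ hχ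
  obtain ⟨B, α, β, γ, hB, hγ, hexp⟩ := hGT (WW N) _ O2
    ((Metric.closedBall (0 : E N) R) ×ˢ {s | d.q s ≤ 1} ×ˢ
      {P : Fin 3 → End N | Proj3 P ∧ ∀ i, ‖P i - p i‖ ≤ η1} ×ˢ
      {P : Fin 3 → End N | Proj3 P ∧ ∀ i, ‖P i - p i‖ ≤ η1}) t0 m hO2 hk2
    ((isCompact_closedBall 0 R).prod (hSc.prod ((PPcompact p η1).prod (PPcompact p η1)))) ht0 hm
    (by
      rintro ρ t ⟨z, s, P, P'⟩ hρ ht ⟨_, _, hP, hP'⟩
      exact hO2' ρ t z s P P' ht hP.1 hP'.1 hP.2 hP'.2)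
  have hexp' : ∀ (z s : E N) (P P' : Fin 3 → End N), z ∈ Metric.closedBall (0 : E N) R →
      d.q s ≤ 1 → P ∈ {P : Fin 3 → End N | Proj3 P ∧ ∀ i, ‖P i - p i‖ ≤ η1} →
      P' ∈ {P : Fin 3 → End N | Proj3 P ∧ ∀ i, ‖P i - p i‖ ≤ η1} → ∀ ρ t : ℝ, |ρ| ≤ 1 →
      |t| ≤ t0 → |kk χ d ρ t z s P P' - ∑ j ∈ Finset.range m,
        ρ ^ j * (α j (z, s, P, P') + t * β j (z, s, P, P')) - γ (z, s, P, P') * t ^ 2| ≤
        B * (|ρ| ^ m + |ρ| * t ^ 2 + |t| ^ 3) :=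
    fun z s P P' hz hs hP hP' => hexp (z, s, P, P') ⟨hz, hs, hP, hP'⟩
  clear hexp
  have hpt : ∀ (z s : E N) (P P' : Fin 3 → End N), z ∈ Metric.closedBall (0 : E N) R →
      d.q s ≤ 1 → P ∈ {P : Fin 3 → End N | Proj3 P ∧ ∀ i, ‖P i - p i‖ ≤ η1} →
      P' ∈ {P : Fin 3 → End N | Proj3 P ∧ ∀ i, ‖P i - p i‖ ≤ η1} →
      (∀ i, ‖P i - p i‖ ≤ η2) → (∀ i, ‖P' i - p i‖ ≤ η2) →
      ∀ ρ t : ℝ, 0 ≤ ρ → 2 ^ m * ρ ≤ 1 → 0 ≤ t → t ≤ t0 →
      χ z * (d.g s - ε) * t ^ 2 - C * B * (ρ ^ m + ρ * t ^ 2 + t ^ 3) ≤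
      ∑ i ∈ Finset.range (m + 1), a i * ((kk χ d (2 ^ i * ρ) (t / 2 ^ i) z s P P' +
        kk χ d (-(2 ^ i * ρ)) (-(t / 2 ^ i)) z s P P') / 2) := by
    intro z s P P' hz hs hP hP' hPη hP'η
    exact pointwise d m hm a C hCB' χ z s P P'
      (fun j => α j (z, s, P, P')) (fun j => β j (z, s, P, P'))
      (fun j => α0 j (0, s, P, P')) (fun j => β0 j (0, s, P, P'))
      (γ (z, s, P, P')) B (γ0 (0, s, P, P')) B0 t0 ht0 hB
      (hexp' z s P P' hz hs hP hP') (hexp0' s P P' hs hP hP') (d.g s - ε)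
      (hlow s P P' hs hP.1 hP'.1 hPη hP'η) (hχ0 z)
  set Vb := (volume (Metric.closedBall (0 : E N) R)).toReal with hVb
  refine ⟨C * B * (V * Vb), min ηs (min t0 (1 / 2 ^ m)),
    lt_min hηs (lt_min ht0 (by positivity)), ?_⟩
  intro ph hph hphc hphη ρ t hρ hρδ ht htδ
  have htηs : t ≤ ηs := htδ.trans (min_le_left _ _)
  have htt0 : t ≤ t0 := htδ.trans ((min_le_right _ _).trans (min_le_left _ _))
  have hρm : 2 ^ m * ρ ≤ 1 := by
    have h1 : ρ ≤ 1 / 2 ^ m := hρδ.trans ((min_le_right _ _).trans (min_le_right _ _))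
    rw [le_div_iff₀ (by positivity)] at h1
    linarith [h1]
  have hphη1 : ∀ i z, ‖ph i z - p i‖ ≤ η1 := fun i z =>
    (hphη i z).trans ((min_le_right _ _).trans hη21)
  have hphη2 : ∀ i z, ‖ph i z - p i‖ ≤ η2 := fun i z => (hphη i z).trans (min_le_right _ _)
  -- the integrands
  let T : ℕ → E N × E N → ℝ := fun i x =>
    (kk χ d (2 ^ i * ρ) (t / 2 ^ i) x.2 x.1 (fun i => ph i x.2)
        (fun i => ph i (x.2 + (ρ * t) • d.X x.1)) +
      kk χ d (-(2 ^ i * ρ)) (-(t / 2 ^ i)) x.2 x.1 (fun i => ph i x.2)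
        (fun i => ph i (x.2 + (ρ * t) • d.X x.1))) / 2
  have hi1 : ∀ i, i ∈ Finset.range (m + 1) → 2 ^ i * ρ ≤ 1 := by
    intro i hi
    have h1 : (2 : ℝ) ^ i ≤ 2 ^ m :=
      pow_le_pow_right₀ one_le_two (Nat.lt_succ_iff.mp (Finset.mem_range.mp hi))
    exact (mul_le_mul_of_nonneg_right h1 hρ.le).trans hρm
  have hi2 : ∀ i : ℕ, t / 2 ^ i ≤ t := fun i =>
    div_le_self ht.le (one_le_pow₀ one_le_two)
  have hi3 : ∀ i : ℕ, 0 < t / 2 ^ i := fun i => by positivity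
  have hTint : ∀ i ∈ Finset.range (m + 1),
      IntegrableOn (T i) ({s | d.q s ≤ 1} ×ˢ (univ : Set (E N))) (volume.prod volume) := by
    intro i hi
    have hcont : ∀ ρ' t' : ℝ, |t'| ≤ t0 → Continuous (fun x : E N × E N =>
        kk χ d ρ' t' x.2 x.1 (fun i => ph i x.2) (fun i => ph i (x.2 + (ρ * t) • d.X x.1))) := by
      intro ρ' t' ht'
      have h1 : Continuous (fun x : E N × E N =>
          ((ρ', t', x.2, x.1, (fun i => ph i x.2), fun i => ph i (x.2 + (ρ * t) • d.X x.1)) :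
            ℝ × ℝ × E N × E N × (Fin 3 → End N) × (Fin 3 → End N))) := by
        refine continuous_const.prodMk (continuous_const.prodMk (continuous_snd.prodMk
          (continuous_fst.prodMk (Continuous.prodMk ?_ ?_))))
        · exact continuous_pi fun i => (hphc i).comp continuous_snd
        · exact continuous_pi fun i => (hphc i).comp (continuous_snd.add
            ((hX.continuous.comp continuous_fst).const_smul (ρ * t)))
      exact hk2.continuousOn.comp_continuous h1 fun x =>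
        hO2' ρ' t' x.2 x.1 _ _ ht' (hph _) (hph _) (fun i => hphη1 i _) (fun i => hphη1 i _)
    refine intOn _ hSc R (T i) ?_ ?_
    · refine Continuous.continuousOn ?_
      refine Continuous.div_const (Continuous.add ?_ ?_) 2
      · exact hcont _ _ (by rw [abs_of_pos (hi3 i)]; exact (hi2 i).trans htt0)
      · exact hcont _ _ (by rw [abs_neg, abs_of_pos (hi3 i)]; exact (hi2 i).trans htt0)
    · intro s hs z hz
      have hρi : |2 ^ i * ρ| ≤ 1 := by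
        rw [abs_of_pos (by positivity)]
        exact hi1 i hi
      change (kk χ d (2 ^ i * ρ) (t / 2 ^ i) z s _ _ +
        kk χ d (-(2 ^ i * ρ)) (-(t / 2 ^ i)) z s _ _) / 2 = 0
      rw [hvan _ _ _ _ _ _ hρi hs hz, hvan _ _ _ _ _ _ (by rwa [abs_neg]) hs hz]
      norm_num
  have hFF : ∀ i ∈ Finset.range (m + 1), FF χ d ph (2 ^ i * ρ) (t / 2 ^ i) =
      ∫ x in {s | d.q s ≤ 1} ×ˢ (univ : Set (E N)), T i x ∂(volume.prod volume) := by
    intro i hi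
    rw [setIntegral_prod _ (hTint i hi)]
    rw [hSF' χ ph hχ.continuous hχc hph hphc (fun i z => (hphη i z).trans (min_le_left _ _))
      (2 ^ i * ρ) (t / 2 ^ i) (by positivity)
      (by rw [abs_of_pos (hi3 i)]; exact (hi2 i).trans htηs)]
    have h1 : 2 ^ i * ρ * (t / 2 ^ i) = ρ * t := by
      field_simp
    rw [h1, ← integral_const_mul]
    refine integral_congr_ae (Eventually.of_forall fun s => ?_)
    simp only [Measure.restrict_univ, T]
    rw [← integral_const_mul]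
    refine integral_congr_ae (Eventually.of_forall fun z => ?_)
    simp only []
    ring
  have hsum : ∑ i ∈ Finset.range (m + 1), a i * FF χ d ph (2 ^ i * ρ) (t / 2 ^ i) =
      ∫ x in {s | d.q s ≤ 1} ×ˢ (univ : Set (E N)),
        ∑ i ∈ Finset.range (m + 1), a i * T i x ∂(volume.prod volume) := by
    rw [integral_finsetSum _ (fun i hi => (hTint i hi).const_mul (a i))]
    refine Finset.sum_congr rfl fun i hi => ?_
    rw [hFF i hi, integral_const_mul]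
  rw [hsum]
  -- the lower function
  set D := C * B * (ρ ^ m + ρ * t ^ 2 + t ^ 3) with hD
  have hDnn : 0 ≤ D := by positivity
  have hSm : MeasurableSet {s | d.q s ≤ 1} := hSclosed.measurableSet
  have hgI : IntegrableOn d.g {s | d.q s ≤ 1} volume :=
    hgc.continuousOn.integrableOn_compact hSc
  have hgεI : IntegrableOn (fun s => d.g s - ε) {s | d.q s ≤ 1} volume :=
    (hgc.sub continuous_const).continuousOn.integrableOn_compact hSc
  have hVfin : volume {s : E N | d.q s ≤ 1} ≠ ⊤ := hSc.measure_lt_top.ne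
  have hind : Integrable ((Metric.closedBall (0 : E N) R).indicator (fun _ => (1 : ℝ))) volume := by
    rw [integrable_indicator_iff measurableSet_closedBall]
    exact continuous_const.continuousOn.integrableOn_compact (isCompact_closedBall 0 R)
  have hprod1 : IntegrableOn (fun x : E N × E N => (d.g x.1 - ε) * χ x.2)
      ({s | d.q s ≤ 1} ×ˢ (univ : Set (E N))) (volume.prod volume) := by
    unfold IntegrableOn
    rw [← Measure.prod_restrict]
    refine Integrable.mul_prod hgεI ?_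
    rw [Measure.restrict_univ]
    exact hχ.continuous.integrable_of_hasCompactSupport hχc
  have hprod2 : IntegrableOn (fun x : E N × E N => (1 : ℝ) *
      (Metric.closedBall (0 : E N) R).indicator (fun _ => (1 : ℝ)) x.2)
      ({s | d.q s ≤ 1} ×ˢ (univ : Set (E N))) (volume.prod volume) := by
    unfold IntegrableOn
    rw [← Measure.prod_restrict]
    refine Integrable.mul_prod (f := fun _ => (1 : ℝ)) ?_ ?_
    · exact continuous_const.continuousOn.integrableOn_compact hSc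
    · rw [Measure.restrict_univ]
      exact hind
  have hle : ∫ x in {s | d.q s ≤ 1} ×ˢ (univ : Set (E N)),
      (t ^ 2 * ((d.g x.1 - ε) * χ x.2) - D * ((1 : ℝ) *
      (Metric.closedBall (0 : E N) R).indicator (fun _ => (1 : ℝ)) x.2)) ∂(volume.prod volume) ≤
      ∫ x in {s | d.q s ≤ 1} ×ˢ (univ : Set (E N)),
        ∑ i ∈ Finset.range (m + 1), a i * T i x ∂(volume.prod volume) := by
    refine setIntegral_mono_on ((hprod1.const_mul _).sub (hprod2.const_mul _))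
      (integrable_finsetSum _ (fun i hi => (hTint i hi).const_mul (a i)))
      (hSm.prod MeasurableSet.univ) ?_
    rintro ⟨s, z⟩ ⟨hs, -⟩
    have hs' : d.q s ≤ 1 := hs
    simp only []
    by_cases hz : ‖z‖ ≤ R
    · rw [indicator_of_mem (by rw [mem_closedBall_zero_iff]; exact hz)]
      have hP1 : (fun i => ph i z) ∈ {P : Fin 3 → End N | Proj3 P ∧ ∀ i, ‖P i - p i‖ ≤ η1} :=
        ⟨hph z, fun i => hphη1 i z⟩
      have hP2 : (fun i => ph i (z + (ρ * t) • d.X s)) ∈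
          {P : Fin 3 → End N | Proj3 P ∧ ∀ i, ‖P i - p i‖ ≤ η1} :=
        ⟨hph _, fun i => hphη1 i _⟩
      have h1 := hpt z s (fun i => ph i z) (fun i => ph i (z + (ρ * t) • d.X s))
        (by rw [mem_closedBall_zero_iff]; exact hz) hs' hP1 hP2
        (fun i => hphη2 i z) (fun i => hphη2 i (z + (ρ * t) • d.X s)) ρ t hρ.le hρm ht.le htt0
      refine le_trans (le_of_eq ?_) h1
      rw [hD]
      ring
    · rw [indicator_of_notMem (by rw [mem_closedBall_zero_iff]; exact hz)]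
      have hz' : R < ‖z‖ := not_le.mp hz
      have h1 : χ z = 0 := hR0' z (by linarith)
      have h2 : ∑ i ∈ Finset.range (m + 1), a i * T i (s, z) = 0 := by
        refine Finset.sum_eq_zero fun i hi => ?_
        have hρi : |2 ^ i * ρ| ≤ 1 := by
          rw [abs_of_pos (by positivity)]
          exact hi1 i hi
        have h3 : T i (s, z) = 0 := by
          change (kk χ d (2 ^ i * ρ) (t / 2 ^ i) z s _ _ +
            kk χ d (-(2 ^ i * ρ)) (-(t / 2 ^ i)) z s _ _) / 2 = 0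
          rw [hvan _ _ _ _ _ _ hρi hs hz', hvan _ _ _ _ _ _ (by rwa [abs_neg]) hs hz']
          norm_num
        rw [h3, mul_zero]
      rw [h2, h1]
      simp
  refine le_trans ?_ hle
  rw [integral_sub (hprod1.const_mul _) (hprod2.const_mul _), integral_const_mul,
    integral_const_mul, setIntegral_prod_mul (fun s => d.g s - ε) χ,
    setIntegral_prod_mul (fun _ : E N => (1 : ℝ))
      ((Metric.closedBall (0 : E N) R).indicator (fun _ => (1 : ℝ)))]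
  simp only [Measure.restrict_univ]
  rw [integral_indicator measurableSet_closedBall, integral_sub hgI
    (continuous_const.continuousOn.integrableOn_compact hSc)]
  have hVe : ∫ _ in {s : E N | d.q s ≤ 1}, (1 : ℝ) = V := by
    rw [setIntegral_const, smul_eq_mul, mul_one]
    rfl
  have hVe' : ∫ _ in {s : E N | d.q s ≤ 1}, ε = V * ε := by
    rw [setIntegral_const, smul_eq_mul]
    rfl
  have hVbe : ∫ _ in Metric.closedBall (0 : E N) R, (1 : ℝ) = Vb := by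
    rw [setIntegral_const, smul_eq_mul, mul_one]
    rfl
  rw [hVe, hVe', hVbe, ← hI]
  have hX0 : 0 ≤ ∫ y, χ y := integral_nonneg hχ0
  have hIe : I / 2 ≤ I - V * ε := by
    have h1 : V * ε ≤ I / 2 := by
      rw [hεdef]
      have h2 : V * (I / (2 * V + 1)) = (I / 2) * (2 * V / (2 * V + 1)) := by
        field_simp
      rw [h2]
      have h3 : 2 * V / (2 * V + 1) ≤ 1 := by
        rw [div_le_one (by linarith)]
        linarith
      calc I / 2 * (2 * V / (2 * V + 1)) ≤ I / 2 * 1 :=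
            mul_le_mul_of_nonneg_left h3 (by linarith [hgpos])
        _ = I / 2 := mul_one _
    linarith
  have h5 : t ^ 2 * ((∫ y, χ y) * I) / 2 ≤ t ^ 2 * ((I - V * ε) * ∫ y, χ y) := by
    have h6 : (∫ y, χ y) * (I / 2) ≤ (∫ y, χ y) * (I - V * ε) :=
      mul_le_mul_of_nonneg_left hIe hX0
    have h7 := mul_le_mul_of_nonneg_left h6 (sq_nonneg t)
    linarith [h7]
  have h8 : D * (V * Vb) = C * B * (V * Vb) * (ρ ^ m + ρ * t ^ 2 + t ^ 3) := by
    rw [hD]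
    ring
  rw [h8]
  linarith [h5]

end Pool.Agent.Helper23.RZ
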