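import Pool.Agent.Helper56.RZ.GoalsF
import Pool.Agent.Helper12.RZ.BS

/-!
Project RZ5 (MP_f32c9c_an), packet EN5: end pieces of the orbit.
-/

set_option autoImplicit false

open Set Filter Topology MeasureTheory

namespace Pool.Agent.Helper23.RZ

open Pool.Agent.Helper56.RZ

section alg

variable {X : Type} [TopologicalSpace X] {K : ℕ} {D : Coc X K} {P : Fin 3 → X → End K}

lemma spl_ne (hP : Spl D P) {i j : Fin 3} (h : i ≠ j) (x : X) : P i x * P j x = 0 := by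
  have := hP.proj x i j
  rwa [if_neg h] at this

lemma spl_PP (hP : Spl D P) (i : Fin 3) (x : X) : P i x * P i x = P i x := by
  have := hP.proj x i i
  rwa [if_pos rfl] at this

lemma spl_TP (hP : Spl D P) (i : Fin 3) (x : X) : D.T x * P i x = P i x := by
  rw [← hP.sum x, add_mul, add_mul, hP.proj, hP.proj, hP.proj]
  fin_cases i <;> simp

lemma spl_PT (hP : Spl D P) (i : Fin 3) (x : X) : P i x * D.T x = P i x := by
  rw [← hP.sum x, mul_add, mul_add, hP.proj, hP.proj, hP.proj]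
  fin_cases i <;> simp

lemma spl_BP (hP : Spl D P) (i : Fin 3) (z : X) :
    D.B (D.f z) * P i (D.f z) = P i z * D.B (D.f z) := by
  have h1 := hP.inv z i
  have h2 : D.B (D.f z) * (D.A z * P i z) * D.B (D.f z) =
      D.B (D.f z) * (P i (D.f z) * D.A z) * D.B (D.f z) := by rw [h1]
  have h3 : D.B (D.f z) * (D.A z * P i z) * D.B (D.f z) = P i z * D.B (D.f z) := by
    rw [← mul_assoc (D.B (D.f z)), D.BA, spl_TP hP]
  have h4 : D.B (D.f z) * (P i (D.f z) * D.A z) * D.B (D.f z) =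
      D.B (D.f z) * P i (D.f z) := by
    rw [mul_assoc, mul_assoc (P i (D.f z)), D.AB, spl_PT hP]
  rw [← h4, ← h2, h3]

lemma spl_Binv (hP : Spl D P) (i : Fin 3) (x : X) :
    D.inv.A x * P i x = P i (D.inv.f x) * D.inv.A x := by
  show D.B x * P i x = P i (D.f.symm x) * D.B x
  have h1 := spl_BP hP i (D.f.symm x)
  rw [Homeomorph.apply_symm_apply] at h1
  exact h1

lemma hrefl (D : Coc X K) (n : ℕ) (x : X) (g : X → ℝ) :
    ∑ j ∈ Finset.range n, g (D.f.symm (D.inv.f^[j] (D.f^[n] x))) =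
      ∑ j ∈ Finset.range n, g (D.f^[j] x) := by
  rw [← Finset.sum_range_reflect]
  refine Finset.sum_congr rfl fun j hj => ?_
  rw [Finset.mem_range] at hj
  congr 1
  have h1 : ∀ m : ℕ, ∀ y : X, (D.f.symm)^[m] (D.f^[m] y) = y := by
    intro m y
    have hli : Function.LeftInverse (D.f.symm : X → X) D.f := D.f.symm_apply_apply
    exact (hli.iterate m) y
  show D.f.symm ((D.f.symm)^[n - 1 - j] (D.f^[n] x)) = D.f^[j] x
  rw [← Function.iterate_succ_apply' (D.f.symm : X → X)]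
  have h2 : n = (n - 1 - j + 1) + j := by omega
  have h3 : D.f^[n] x = D.f^[n - 1 - j + 1] (D.f^[j] x) := by
    rw [← Function.iterate_add_apply, ← h2]
  rw [h3]
  exact h1 _ _

/-- the four products -/
lemma prods (hP : Spl D P) {a b c : X → ℝ} {C0 RP : ℝ} (hr : Rates D P a b c C0)
    (hR : ∀ i x, ‖P i x‖ ≤ RP) (hRP : 1 ≤ RP) (n : ℕ) (x : X) :
    ‖D.An n x * P 0 x‖ ≤ RP * Real.exp (- ∑ j ∈ Finset.range n, b (D.f^[j] x) + n * C0) ∧
    ‖D.inv.An n (D.f^[n] x) * P 2 (D.f^[n] x)‖ ≤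
      RP * Real.exp (- ∑ j ∈ Finset.range n, a (D.f^[j] x) + n * C0) ∧
    ‖D.An n x * P 1 x‖ ≤
      2 * RP ^ 2 * Real.exp (∑ j ∈ Finset.range n, c (D.f^[j] x) + n * C0) ∧
    ‖D.inv.An n (D.f^[n] x) * P 1 (D.f^[n] x)‖ ≤
      2 * RP ^ 2 * Real.exp (∑ j ∈ Finset.range n, c (D.f^[j] x) + n * C0) := by
  have hRP0 : 0 ≤ RP := by linarith
  have n01 : (0 : Fin 3) ≠ 1 := by decide
  have n10 : (1 : Fin 3) ≠ 0 := by decide
  have n12 : (1 : Fin 3) ≠ 2 := by decide
  have n21 : (2 : Fin 3) ≠ 1 := by decide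
  refine ⟨?_, ?_, ?_, ?_⟩
  · have h := Pool.Agent.Helper12.RZ.an_growth D (P 0) (fun y => - b y + C0) RP (hR 0)
      (spl_PP hP 0) (spl_TP hP 0) (fun x => hP.inv x 0) hr.A0 n x
    rw [Finset.sum_add_distrib, Finset.sum_neg_distrib, Finset.sum_const, Finset.card_range,
      nsmul_eq_mul] at h
    exact h
  · have G2 : ∀ x, ‖D.inv.A x * P 2 x‖ ≤ Real.exp (- a (D.f.symm x) + C0) := by
      intro x
      show ‖D.B x * P 2 x‖ ≤ _
      have h1 := hr.B2 (D.f.symm x)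
      rw [Homeomorph.apply_symm_apply] at h1
      exact h1
    have h := Pool.Agent.Helper12.RZ.an_growth D.inv (P 2) (fun y => - a (D.f.symm y) + C0) RP
      (hR 2) (spl_PP hP 2) (spl_TP hP 2) (spl_Binv hP 2) G2 n (D.f^[n] x)
    rw [Finset.sum_add_distrib, Finset.sum_neg_distrib, Finset.sum_const, Finset.card_range,
      nsmul_eq_mul, hrefl D n x a] at h
    exact h
  · have hQ : ∀ x, ‖P 0 x + P 1 x‖ ≤ 2 * RP := fun x =>
      (norm_add_le _ _).trans (by linarith [hR 0 x, hR 1 x])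
    have h := Pool.Agent.Helper12.RZ.an_growth D (fun x => P 0 x + P 1 x) (fun y => c y + C0)
      (2 * RP) hQ (fun x => by
        rw [add_mul, mul_add, mul_add, spl_PP hP, spl_PP hP, spl_ne hP n01, spl_ne hP n10,
          add_zero, zero_add]) (fun x => by rw [mul_add, spl_TP hP, spl_TP hP])
      (fun x => by rw [mul_add, add_mul, hP.inv, hP.inv]) hr.A1 n x
    rw [Finset.sum_add_distrib, Finset.sum_const, Finset.card_range, nsmul_eq_mul] at h
    have e : D.An n x * P 1 x = D.An n x * (P 0 x + P 1 x) * P 1 x := by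
      rw [mul_assoc, add_mul, spl_ne hP n01, spl_PP hP, zero_add]
    rw [e]
    calc ‖D.An n x * (P 0 x + P 1 x) * P 1 x‖ ≤ ‖D.An n x * (P 0 x + P 1 x)‖ * ‖P 1 x‖ :=
          norm_mul_le _ _
      _ ≤ (2 * RP * Real.exp (∑ j ∈ Finset.range n, c (D.f^[j] x) + n * C0)) * RP :=
          mul_le_mul h (hR 1 x) (norm_nonneg _) (by positivity)
      _ = _ := by ring
  · have hQ : ∀ x, ‖P 1 x + P 2 x‖ ≤ 2 * RP := fun x =>
      (norm_add_le _ _).trans (by linarith [hR 1 x, hR 2 x])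
    have G1 : ∀ x, ‖D.inv.A x * (P 1 x + P 2 x)‖ ≤ Real.exp (c (D.f.symm x) + C0) := by
      intro x
      show ‖D.B x * (P 1 x + P 2 x)‖ ≤ _
      have h1 := hr.B1 (D.f.symm x)
      rw [Homeomorph.apply_symm_apply] at h1
      exact h1
    have h := Pool.Agent.Helper12.RZ.an_growth D.inv (fun x => P 1 x + P 2 x)
      (fun y => c (D.f.symm y) + C0)
      (2 * RP) hQ (fun x => by
        rw [add_mul, mul_add, mul_add, spl_PP hP, spl_PP hP, spl_ne hP n12, spl_ne hP n21,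
          add_zero, zero_add]) (fun x => by
        show D.T x * (P 1 x + P 2 x) = _
        rw [mul_add, spl_TP hP, spl_TP hP])
      (fun x => by rw [mul_add, add_mul, spl_Binv hP, spl_Binv hP]) G1 n (D.f^[n] x)
    rw [Finset.sum_add_distrib, Finset.sum_const, Finset.card_range, nsmul_eq_mul,
      hrefl D n x c] at h
    have e : D.inv.An n (D.f^[n] x) * P 1 (D.f^[n] x) =
        D.inv.An n (D.f^[n] x) * (P 1 (D.f^[n] x) + P 2 (D.f^[n] x)) * P 1 (D.f^[n] x) := by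
      rw [mul_assoc, add_mul, spl_ne hP n21, spl_PP hP, add_zero]
    rw [e]
    calc ‖D.inv.An n (D.f^[n] x) * (P 1 (D.f^[n] x) + P 2 (D.f^[n] x)) * P 1 (D.f^[n] x)‖
        ≤ ‖D.inv.An n (D.f^[n] x) * (P 1 (D.f^[n] x) + P 2 (D.f^[n] x))‖ * ‖P 1 (D.f^[n] x)‖ :=
          norm_mul_le _ _
      _ ≤ (2 * RP * Real.exp (∑ j ∈ Finset.range n, c (D.f^[j] x) + n * C0)) * RP :=
          mul_le_mul h (hR 1 _) (norm_nonneg _) (by positivity)
      _ = _ := by ring

end alg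

lemma rpow_le_of {R t ν : ℝ} (hR : 0 < R) (ht : 0 < t) (hν : 0 < ν) (h : R ≤ t ^ (1 / ν)) :
    R ^ ν ≤ t := by
  calc R ^ ν ≤ (t ^ (1 / ν)) ^ ν := Real.rpow_le_rpow hR.le h hν.le
    _ = t := by rw [← Real.rpow_mul ht.le, one_div, inv_mul_cancel₀ hν.ne', Real.rpow_one]

theorem en5 : StmtOD5 → StmtEN5 := by
  intro hOD K M hM D P a b c C0 Λ ε C' ν CB hP hL hr hC0 hΛ haΛ hε hεΛ hν hν1 hCB
  have : CompactSpace M := isCompact_iff_compactSpace.1 hM
  have hCB0 : 0 < CB := by linarith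
  obtain ⟨δ, hδ, hδθ, hδ1, hod⟩ := hOD K M hM D a C0 Λ (1 / CB) hL hr.conta hC0 hr.nA hΛ haΛ
    (by positivity)
  -- bounds
  obtain ⟨Am, hAm⟩ := isCompact_univ.exists_bound_of_continuousOn (f := a) hr.conta.continuousOn
  obtain ⟨R0, hR0⟩ := isCompact_univ.exists_bound_of_continuousOn (f := P 0)
    (hP.cont 0).continuousOn
  obtain ⟨R1', hR1'⟩ := isCompact_univ.exists_bound_of_continuousOn (f := P 1)
    (hP.cont 1).continuousOn
  obtain ⟨R2, hR2⟩ := isCompact_univ.exists_bound_of_continuousOn (f := P 2)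
    (hP.cont 2).continuousOn
  set RP : ℝ := max 1 (max R0 (max R1' R2)) with hRP
  have hRP1 : 1 ≤ RP := le_max_left _ _
  have hPR : ∀ i x, ‖P i x‖ ≤ RP := by
    intro i x
    fin_cases i
    · exact (hR0 x (mem_univ _)).trans ((le_max_left _ _).trans (le_max_right _ _))
    · exact (hR1' x (mem_univ _)).trans (((le_max_left _ _).trans (le_max_right _ _)).trans
        (le_max_right _ _))
    · exact (hR2 x (mem_univ _)).trans (((le_max_right _ _).trans (le_max_right _ _)).trans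
        (le_max_right _ _))
  -- uniform continuity
  have ua := Metric.uniformContinuous_iff.1 (CompactSpace.uniformContinuous_of_continuous hr.conta)
    1 one_pos
  have ub := Metric.uniformContinuous_iff.1 (CompactSpace.uniformContinuous_of_continuous hr.contb)
    1 one_pos
  have uc := Metric.uniformContinuous_iff.1 (CompactSpace.uniformContinuous_of_continuous hr.contc)
    1 one_pos
  obtain ⟨ηa, hηa, ua⟩ := ua
  obtain ⟨ηb, hηb, ub⟩ := ub
  obtain ⟨ηc, hηc, uc⟩ := uc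
  set η : ℝ := min ηa (min ηb ηc) with hη
  have hη0 : 0 < η := lt_min hηa (lt_min hηb hηc)
  have h1ν : 0 < 1 - ν := by linarith
  set Am' : ℝ := max Am 0 with hAm'
  have hAm0 : 0 ≤ Am' := le_max_right _ _
  have haAm : ∀ x, a x ≤ Am' := fun x =>
    (le_abs_self _).trans ((hAm x (mem_univ _)).trans (le_max_left _ _))
  set C : ℝ := 2 * RP ^ 2 * Real.exp (|C'|) * (δ⁻¹ * Real.exp (Am' + (C0 + 2))) with hC
  have hδinv : 1 ≤ δ⁻¹ := (one_le_inv₀ hδ).2 hδ1
  have hexp1 : 1 ≤ Real.exp (|C'|) := Real.one_le_exp (abs_nonneg _)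
  have hexp2 : 1 ≤ Real.exp (Am' + (C0 + 2)) := Real.one_le_exp (by linarith)
  have hRP2 : 1 ≤ RP ^ 2 := one_le_pow₀ hRP1
  have hB1 : 1 ≤ δ⁻¹ * Real.exp (Am' + (C0 + 2)) := one_le_mul_of_one_le_of_one_le hδinv hexp2
  have hCge : 2 * RP ^ 2 ≤ C := by
    have h2 : 0 ≤ 2 * RP ^ 2 := by positivity
    calc 2 * RP ^ 2 = 2 * RP ^ 2 * 1 * 1 := by ring
      _ ≤ C := by
        rw [hC]
        exact mul_le_mul (mul_le_mul_of_nonneg_left hexp1 h2) hB1 zero_le_one (by positivity)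
  have hRPle : RP ≤ 2 * RP ^ 2 := by nlinarith
  have hCge2 : RP * Real.exp (|C'|) * (δ⁻¹ * Real.exp (Am' + (C0 + 2))) ≤ C := by
    rw [hC]
    exact mul_le_mul_of_nonneg_right (mul_le_mul_of_nonneg_right hRPle (by positivity))
      (by positivity)
  have hCge3 : RP * (δ⁻¹ * Real.exp (Am' + (C0 + 2))) ≤ C := by
    refine le_trans ?_ hCge2
    refine mul_le_mul_of_nonneg_right ?_ (by positivity)
    exact le_mul_of_one_le_right (by linarith) hexp1
  refine ⟨C, min 1 (min (δ ^ (1 / (1 - ν))) (min ((1 / CB) ^ (1 / ν)) ((η / 2) ^ (1 / ν)))),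
    by linarith, ?_, min_le_left _ _, ?_⟩
  · have : 0 < δ ^ (1 / (1 - ν)) := Real.rpow_pos_of_pos hδ _
    have : 0 < (1 / CB) ^ (1 / ν) := Real.rpow_pos_of_pos (by positivity) _
    have : 0 < (η / 2) ^ (1 / ν) := Real.rpow_pos_of_pos (by positivity) _
    simp only [lt_min_iff]
    exact ⟨one_pos, by assumption, by assumption, by assumption⟩
  intro x0 hG R hR hRle
  have hRle1 : R ≤ 1 := hRle.trans (min_le_left _ _)
  have hRle2 : R ≤ δ ^ (1 / (1 - ν)) := hRle.trans ((min_le_right _ _).trans (min_le_left _ _))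
  have hRle3 : R ≤ (1 / CB) ^ (1 / ν) :=
    hRle.trans ((min_le_right _ _).trans ((min_le_right _ _).trans (min_le_left _ _)))
  have hRle4 : R ≤ (η / 2) ^ (1 / ν) :=
    hRle.trans ((min_le_right _ _).trans ((min_le_right _ _).trans (min_le_right _ _)))
  have hρδ : R ^ (1 - ν) ≤ δ := rpow_le_of hR hδ h1ν hRle2
  have hRν : R ^ ν ≤ 1 / CB := rpow_le_of hR (by positivity) hν hRle3
  have hRη : R ^ ν ≤ η / 2 := rpow_le_of hR (by positivity) hν hRle4
  have hρ0 : 0 < R ^ (1 - ν) := Real.rpow_pos_of_pos hR _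
  have hν0 : 0 < R ^ ν := Real.rpow_pos_of_pos hR _
  have hsplit : R ^ (1 - ν) * R ^ ν = R := by
    rw [← Real.rpow_add hR, sub_add_cancel, Real.rpow_one]
  have hCBR : CB * R ≤ R ^ (1 - ν) := by
    have h1 : CB * R ^ ν ≤ 1 := by
      calc CB * R ^ ν ≤ CB * (1 / CB) := mul_le_mul_of_nonneg_left hRν hCB0.le
        _ = 1 := by field_simp
    calc CB * R = CB * (R ^ (1 - ν) * R ^ ν) := by rw [hsplit]
      _ = R ^ (1 - ν) * (CB * R ^ ν) := by ring
      _ ≤ R ^ (1 - ν) * 1 := mul_le_mul_of_nonneg_left h1 hρ0.le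
      _ = R ^ (1 - ν) := mul_one _
  obtain ⟨N, hN1, hN2, hN3, hN4⟩ := hod x0 (R ^ (1 - ν)) hρ0 hρδ
  have hexpN : Real.exp (N * Λ) ≤ R⁻¹ := by
    refine hN1.trans ?_
    refine inv_anti₀ hR ?_
    calc R = R ^ (1 : ℝ) := (Real.rpow_one R).symm
      _ ≤ R ^ (1 - ν) := Real.rpow_le_rpow_of_exponent_ge hR hRle1 (by linarith)
  refine ⟨N, hexpN, ?_⟩
  intro x hx
  -- powers
  set Sa := ∑ j ∈ Finset.range N, a (D.f^[j] x0) with hSa
  set Sb := ∑ j ∈ Finset.range N, b (D.f^[j] x0) with hSb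
  set Sc := ∑ j ∈ Finset.range N, c (D.f^[j] x0) with hSc
  have hNn : (0 : ℝ) ≤ N := Nat.cast_nonneg N
  have hexpε : Real.exp (ε * (N * Λ)) ≤ R ^ (-ε) := by
    have h1 : Real.exp (ε * (N * Λ)) = (Real.exp (N * Λ)) ^ ε := by
      rw [← Real.exp_mul, mul_comm]
    rw [h1, Real.rpow_neg hR.le, ← Real.inv_rpow hR.le]
    exact Real.rpow_le_rpow (Real.exp_pos _).le hexpN hε.le
  have hGN := hG N
  have hC'0 : 0 ≤ C' := by
    have := (hG 0).2
    simpa using this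
  have hGc : Sc ≤ ε * (N * Λ) := hGN.1
  have hGab : |Sa - Sb| ≤ ε * (N * Λ) + C' := by
    have := hGN.2
    rwa [Finset.sum_sub_distrib] at this
  have hNC : (N : ℝ) * (C0 + 1) ≤ ε * (N * Λ) := by
    have h1 : C0 + 1 ≤ ε * Λ := by linarith
    calc (N : ℝ) * (C0 + 1) ≤ N * (ε * Λ) := mul_le_mul_of_nonneg_left h1 hNn
      _ = ε * (N * Λ) := by ring
  have hNC2 : (N : ℝ) * (C0 + 2) ≤ ε * (N * Λ) := by
    have h1 : C0 + 2 ≤ ε * Λ := by linarith
    calc (N : ℝ) * (C0 + 2) ≤ N * (ε * Λ) := mul_le_mul_of_nonneg_left h1 hNn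
      _ = ε * (N * Λ) := by ring
  have hprox : ∀ j ≤ N, ‖(D.f^[j] x : E K) - D.f^[j] x0‖ ≤ R ^ ν := by
    intro j hj
    have h1 := hN4 x (hx.trans hCBR) j hj
    refine h1.trans ?_
    have h2 : ∑ i ∈ Finset.range j, a (D.f^[i] x0) + j * (C0 + 2) ≤ Sa + N * (C0 + 2) := by
      have h3 : ∑ i ∈ Finset.range j, a (D.f^[i] x0) ≤ Sa :=
        Finset.sum_le_sum_of_subset_of_nonneg (Finset.range_mono hj)
          (fun i _ _ => hΛ.le.trans (haΛ _))
      have h4 : (j : ℝ) ≤ N := by exact_mod_cast hj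
      have h5 : (j : ℝ) * (C0 + 2) ≤ N * (C0 + 2) := mul_le_mul_of_nonneg_right h4 (by linarith)
      linarith
    calc ‖(x : E K) - x0‖ * Real.exp (∑ i ∈ Finset.range j, a (D.f^[i] x0) + j * (C0 + 2))
        ≤ (CB * R) * Real.exp (Sa + N * (C0 + 2)) :=
          mul_le_mul hx (Real.exp_le_exp.2 h2) (Real.exp_pos _).le (by positivity)
      _ = (CB * (R ^ (1 - ν) * R ^ ν)) * Real.exp (Sa + N * (C0 + 2)) := by rw [hsplit]
      _ = (CB * R ^ ν) * (R ^ (1 - ν) * Real.exp (Sa + N * (C0 + 2))) := by ring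
      _ ≤ (CB * R ^ ν) * δ := mul_le_mul_of_nonneg_left hN2 (by positivity)
      _ ≤ (CB * R ^ ν) * (1 / CB) := mul_le_mul_of_nonneg_left hδθ (by positivity)
      _ = R ^ ν := by field_simp
  have hdist : ∀ j ≤ N, dist (D.f^[j] x) (D.f^[j] x0) < η := by
    intro j hj
    rw [Subtype.dist_eq, dist_eq_norm]
    have := hprox j hj
    linarith
  -- comparison of the sums
  have hcmp : ∀ g : M → ℝ, (∀ y z : M, dist y z < η → dist (g y) (g z) < 1) →
      |∑ j ∈ Finset.range N, g (D.f^[j] x) - ∑ j ∈ Finset.range N, g (D.f^[j] x0)| ≤ N := by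
    intro g hg
    rw [← Finset.sum_sub_distrib]
    calc |∑ j ∈ Finset.range N, (g (D.f^[j] x) - g (D.f^[j] x0))|
        ≤ ∑ j ∈ Finset.range N, |g (D.f^[j] x) - g (D.f^[j] x0)| :=
          Finset.abs_sum_le_sum_abs _ _
      _ ≤ ∑ j ∈ Finset.range N, (1 : ℝ) := by
          refine Finset.sum_le_sum fun j hj => ?_
          have := hg _ _ (hdist j (Finset.mem_range.1 hj).le)
          rw [Real.dist_eq] at this
          exact this.le
      _ = N := by simp
  have ca := hcmp a fun y z h => ua (lt_of_lt_of_le h (min_le_left _ _))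
  have cb := hcmp b fun y z h => ub (lt_of_lt_of_le h ((min_le_right _ _).trans (min_le_left _ _)))
  have cc := hcmp c fun y z h => uc (lt_of_lt_of_le h ((min_le_right _ _).trans (min_le_right _ _)))
  rw [abs_le] at ca cb cc hGab
  obtain ⟨p0, p2, p1, p1'⟩ := prods hP hr hPR hRP1 N x
  -- the decay
  have hdecay : Real.exp (-Sa) ≤ δ⁻¹ * Real.exp (Am' + (C0 + 2)) * R ^ (1 - ν - ε) := by
    have h1 : Real.exp (∑ j ∈ Finset.range (N + 1), a (D.f^[j] x0) + ((N : ℝ) + 1) * (C0 + 2)) ≤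
        Real.exp Sa * (Real.exp (Am' + (C0 + 2)) * Real.exp (ε * (N * Λ))) := by
      rw [← Real.exp_add, ← Real.exp_add, Real.exp_le_exp, Finset.sum_range_succ]
      have := haAm (D.f^[N] x0)
      nlinarith
    have h2 : δ ≤ R ^ (1 - ν) * (Real.exp Sa * (Real.exp (Am' + (C0 + 2)) * R ^ (-ε))) := by
      refine hN3.trans (mul_le_mul_of_nonneg_left (h1.trans ?_) hρ0.le)
      exact mul_le_mul_of_nonneg_left (mul_le_mul_of_nonneg_left hexpε (Real.exp_pos _).le)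
        (Real.exp_pos _).le
    have h3 : R ^ (1 - ν - ε) = R ^ (1 - ν) * R ^ (-ε) := by
      rw [← Real.rpow_add hR]
      congr 1
    rw [h3, Real.exp_neg, inv_mul_eq_div, inv_eq_one_div, div_mul_eq_mul_div,
      div_le_div_iff₀ (Real.exp_pos _) hδ]
    linarith [h2, mul_comm (R ^ (1 - ν)) (Real.exp Sa * (Real.exp (Am' + (C0 + 2)) * R ^ (-ε))),
      show R ^ (1 - ν) * (Real.exp Sa * (Real.exp (Am' + (C0 + 2)) * R ^ (-ε))) =
        Real.exp (Am' + (C0 + 2)) * (R ^ (1 - ν) * R ^ (-ε)) * Real.exp Sa by ring]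
  have hmonoR : ∀ s t : ℝ, s ≤ t → R ^ t ≤ R ^ s := fun s t h =>
    Real.rpow_le_rpow_of_exponent_ge hR hRle1 h
  have hexp2ε : Real.exp (2 * (ε * (N * Λ))) ≤ R ^ (-(2 * ε)) := by
    have h1 : Real.exp (2 * (ε * (N * Λ))) = Real.exp (ε * (N * Λ)) * Real.exp (ε * (N * Λ)) := by
      rw [← Real.exp_add]; congr 1; ring
    have h2 : R ^ (-(2 * ε)) = R ^ (-ε) * R ^ (-ε) := by
      rw [← Real.rpow_add hR]; congr 1; ring
    rw [h1, h2]
    exact mul_le_mul hexpε hexpε (Real.exp_pos _).le (Real.rpow_pos_of_pos hR _).le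
  refine ⟨hprox, ?_, ?_, ?_, ?_⟩
  · refine p0.trans ?_
    have h1 : Real.exp (- ∑ j ∈ Finset.range N, b (D.f^[j] x) + N * C0) ≤
        Real.exp |C'| * (Real.exp (-Sa) * Real.exp (2 * (ε * (N * Λ)))) := by
      rw [← Real.exp_add, ← Real.exp_add, Real.exp_le_exp, abs_of_nonneg hC'0]
      linarith [cb.1, cb.2, hGab.1, hGab.2, hNC, show (N : ℝ) * (C0 + 1) = N * C0 + N by ring]
    have h2 : Real.exp (-Sa) * Real.exp (2 * (ε * (N * Λ))) ≤
        (δ⁻¹ * Real.exp (Am' + (C0 + 2)) * R ^ (1 - ν - ε)) * R ^ (-(2 * ε)) :=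
      mul_le_mul hdecay hexp2ε (Real.exp_pos _).le (by positivity)
    have h3 : R ^ (1 - ν - ε) * R ^ (-(2 * ε)) ≤ R ^ (1 - ν - 4 * ε) := by
      rw [← Real.rpow_add hR]
      exact hmonoR _ _ (by linarith)
    calc RP * Real.exp (- ∑ j ∈ Finset.range N, b (D.f^[j] x) + N * C0)
        ≤ RP * (Real.exp |C'| * ((δ⁻¹ * Real.exp (Am' + (C0 + 2)) * R ^ (1 - ν - ε)) *
            R ^ (-(2 * ε)))) := by
          refine mul_le_mul_of_nonneg_left (h1.trans ?_) (by linarith)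
          exact mul_le_mul_of_nonneg_left h2 (Real.exp_pos _).le
      _ = (RP * Real.exp |C'| * (δ⁻¹ * Real.exp (Am' + (C0 + 2)))) *
            (R ^ (1 - ν - ε) * R ^ (-(2 * ε))) := by ring
      _ ≤ C * R ^ (1 - ν - 4 * ε) := mul_le_mul hCge2 h3 (by positivity) (by positivity)
  · refine p2.trans ?_
    have h1 : Real.exp (- ∑ j ∈ Finset.range N, a (D.f^[j] x) + N * C0) ≤
        Real.exp (-Sa) * Real.exp (ε * (N * Λ)) := by
      rw [← Real.exp_add, Real.exp_le_exp]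
      linarith [ca.1, ca.2, hNC, show (N : ℝ) * (C0 + 1) = N * C0 + N by ring]
    have h2 : Real.exp (-Sa) * Real.exp (ε * (N * Λ)) ≤
        (δ⁻¹ * Real.exp (Am' + (C0 + 2)) * R ^ (1 - ν - ε)) * R ^ (-ε) :=
      mul_le_mul hdecay hexpε (Real.exp_pos _).le (by positivity)
    have h3 : R ^ (1 - ν - ε) * R ^ (-ε) ≤ R ^ (1 - ν - 4 * ε) := by
      rw [← Real.rpow_add hR]
      exact hmonoR _ _ (by linarith)
    calc RP * Real.exp (- ∑ j ∈ Finset.range N, a (D.f^[j] x) + N * C0)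
        ≤ RP * ((δ⁻¹ * Real.exp (Am' + (C0 + 2)) * R ^ (1 - ν - ε)) * R ^ (-ε)) :=
          mul_le_mul_of_nonneg_left (h1.trans h2) (by linarith)
      _ = (RP * (δ⁻¹ * Real.exp (Am' + (C0 + 2)))) * (R ^ (1 - ν - ε) * R ^ (-ε)) := by ring
      _ ≤ C * R ^ (1 - ν - 4 * ε) := mul_le_mul hCge3 h3 (by positivity) (by positivity)
  · refine p1.trans ?_
    have h1 : Real.exp (∑ j ∈ Finset.range N, c (D.f^[j] x) + N * C0) ≤ R ^ (-(2 * ε)) := by
      refine le_trans (Real.exp_le_exp.2 ?_) hexp2ε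
      linarith [cc.1, cc.2, hNC, hGc, show (N : ℝ) * (C0 + 1) = N * C0 + N by ring]
    exact mul_le_mul hCge h1 (Real.exp_pos _).le (by positivity)
  · refine p1'.trans ?_
    have h1 : Real.exp (∑ j ∈ Finset.range N, c (D.f^[j] x) + N * C0) ≤ R ^ (-(2 * ε)) := by
      refine le_trans (Real.exp_le_exp.2 ?_) hexp2ε
      linarith [cc.1, cc.2, hNC, hGc, show (N : ℝ) * (C0 + 1) = N * C0 + N by ring]
    exact mul_le_mul hCge h1 (Real.exp_pos _).le (by positivity)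

end Pool.Agent.Helper23.RZ
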