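import Pool.Agent.Helper56.RZ.GoalsC
import Pool.Agent.Helper95.RZ.K1

/-!
# Packet RZ2-K4 (project RZ2, MP_f32c9c_an): the modulus of continuity in the chart
-/

set_option autoImplicit false

open Set Filter Topology MeasureTheory

open scoped ContDiff

namespace Pool.Agent.Helper23.RZ

open Pool.Agent.Helper56.RZ
open Pool.Agent.Helper95.RZ (k1_norm)

/-- The packet `K4`. -/
theorem k4 : StmtK4 := by
  intro N K r M c P z0 hz0 hr1 hP hMod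
  have hmem : ∀ z ∈ c.V, c.ψ z ∈ M := fun z hz => (c.mapsψ z hz).1
  have hψ : ContDiffAt ℝ ∞ c.ψ z0 := c.smoothψ.contDiffAt (c.openV.mem_nhds hz0)
  have hφ : ContDiffAt ℝ ∞ c.φ (c.ψ z0) :=
    c.smoothφ.contDiffAt (c.openW.mem_nhds (c.mapsψ z0 hz0).2)
  have le2 : (1 : WithTop ℕ∞) + 1 ≤ ∞ := by
    have h : (((2 : ℕ∞)) : WithTop ℕ∞) ≤ ((⊤ : ℕ∞) : WithTop ℕ∞) := WithTop.coe_le_coe.mpr le_top
    exact (show (1 : WithTop ℕ∞) + 1 = ((2 : ℕ∞) : WithTop ℕ∞) by norm_num) ▸ h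
  have le1 : (1 : WithTop ℕ∞) ≤ ∞ := by simp
  have hu : ContDiffAt ℝ 1 (fderiv ℝ c.ψ) z0 := hψ.fderiv_right le2
  have hv : ContDiffAt ℝ 1 (fun z => fderiv ℝ c.φ (c.ψ z)) z0 :=
    (hφ.fderiv_right le2).comp z0 (hψ.of_le le1)
  -- continuity of the projections along the chart
  have hPc : ∀ i, ContinuousAt (fun z => P i (c.ψ z)) z0 := by
    intro i
    have h1 : ContinuousWithinAt (fun z => P i (c.ψ z)) c.V z0 :=
      ((hP i) (c.ψ z0) (hmem z0 hz0)).comp hψ.continuousAt.continuousWithinAt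
        (fun z hz => hmem z hz)
    exact h1.continuousAt (c.openV.mem_nhds hz0)
  refine ⟨fun i => ?_, ?_⟩
  · exact hv.continuousAt.clm_comp ((hPc i).clm_comp hu.continuousAt)
  · intro C' hC' η hη
    obtain ⟨Lψ, t1, ht1, hL1⟩ := (hψ.of_le le1).exists_lipschitzOnWith
    obtain ⟨Lu, t2, ht2, hL2⟩ := hu.exists_lipschitzOnWith
    obtain ⟨Lv, t3, ht3, hL3⟩ := hv.exists_lipschitzOnWith
    obtain ⟨B, hBdef⟩ : ∃ B : ℝ, B = ∑ i, ‖P i (c.ψ z0)‖ + 1 := ⟨_, rfl⟩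
    have B0 : 0 ≤ B := by rw [hBdef]; positivity
    have ht4 : {z | ∀ i, ‖P i (c.ψ z)‖ ≤ B} ∈ 𝓝 z0 := by
      have h1 : ∀ i, ∀ᶠ z in 𝓝 z0, ‖P i (c.ψ z)‖ < B := by
        intro i
        refine (hPc i).norm.eventually_lt continuousAt_const ?_
        have h2 : ‖P i (c.ψ z0)‖ ≤ ∑ i, ‖P i (c.ψ z0)‖ :=
          Finset.single_le_sum (f := fun i => ‖P i (c.ψ z0)‖) (fun _ _ => norm_nonneg _)
            (Finset.mem_univ i)
        rw [hBdef]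
        linarith
      have h3 := eventually_all.mpr h1
      exact h3.mono fun z hz i => (hz i).le
    have hall : c.V ∩ t1 ∩ t2 ∩ t3 ∩ {z | ∀ i, ‖P i (c.ψ z)‖ ≤ B} ∈ 𝓝 z0 :=
      inter_mem (inter_mem (inter_mem (inter_mem (c.openV.mem_nhds hz0) ht1) ht2) ht3) ht4
    obtain ⟨q, q0, hq⟩ := Metric.nhds_basis_closedBall.mem_iff.mp hall
    obtain ⟨b, hbdef⟩ : ∃ b : ℝ,
      b = ‖fderiv ℝ c.ψ z0‖ + Lu * q + (‖fderiv ℝ c.φ (c.ψ z0)‖ + Lv * q) := ⟨_, rfl⟩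
    have b0 : 0 ≤ b := by rw [hbdef]; positivity
    have hz0b : z0 ∈ Metric.closedBall z0 q := Metric.mem_closedBall_self q0.le
    have hψL : ∀ z ∈ Metric.closedBall z0 q, ∀ z' ∈ Metric.closedBall z0 q,
        ‖c.ψ z - c.ψ z'‖ ≤ Lψ * ‖z - z'‖ := by
      intro z hz z' hz'
      have := hL1.dist_le_mul z (hq hz).1.1.1.2 z' (hq hz').1.1.1.2
      rwa [dist_eq_norm, dist_eq_norm] at this
    have hUL : ∀ z ∈ Metric.closedBall z0 q, ∀ z' ∈ Metric.closedBall z0 q,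
        ‖fderiv ℝ c.ψ z - fderiv ℝ c.ψ z'‖ ≤ Lu * ‖z - z'‖ := by
      intro z hz z' hz'
      have := hL2.dist_le_mul z (hq hz).1.1.2 z' (hq hz').1.1.2
      rwa [dist_eq_norm, dist_eq_norm] at this
    have hVL : ∀ z ∈ Metric.closedBall z0 q, ∀ z' ∈ Metric.closedBall z0 q,
        ‖fderiv ℝ c.φ (c.ψ z) - fderiv ℝ c.φ (c.ψ z')‖ ≤ Lv * ‖z - z'‖ := by
      intro z hz z' hz'
      have := hL3.dist_le_mul z (hq hz).1.2 z' (hq hz').1.2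
      rwa [dist_eq_norm, dist_eq_norm] at this
    have hdq : ∀ z ∈ Metric.closedBall z0 q, ‖z - z0‖ ≤ q := by
      intro z hz
      rw [← dist_eq_norm]
      exact Metric.mem_closedBall.mp hz
    have hUB : ∀ z ∈ Metric.closedBall z0 q, ‖fderiv ℝ c.ψ z‖ ≤ b := by
      intro z hz
      have h1 := hUL z hz z0 hz0b
      have h2 : (Lu : ℝ) * ‖z - z0‖ ≤ Lu * q :=
        mul_le_mul_of_nonneg_left (hdq z hz) Lu.coe_nonneg
      have h4 := norm_sub_norm_le (fderiv ℝ c.ψ z) (fderiv ℝ c.ψ z0)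
      have h5 := norm_nonneg (fderiv ℝ c.φ (c.ψ z0))
      have h6 : 0 ≤ (Lv : ℝ) * q := mul_nonneg Lv.coe_nonneg q0.le
      rw [hbdef]
      linarith
    have hVB : ∀ z ∈ Metric.closedBall z0 q, ‖fderiv ℝ c.φ (c.ψ z)‖ ≤ b := by
      intro z hz
      have h1 := hVL z hz z0 hz0b
      have h2 : (Lv : ℝ) * ‖z - z0‖ ≤ Lv * q :=
        mul_le_mul_of_nonneg_left (hdq z hz) Lv.coe_nonneg
      have h4 := norm_sub_norm_le (fderiv ℝ c.φ (c.ψ z)) (fderiv ℝ c.φ (c.ψ z0))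
      have h5 := norm_nonneg (fderiv ℝ c.ψ z0)
      have h6 : 0 ≤ (Lu : ℝ) * q := mul_nonneg Lu.coe_nonneg q0.le
      rw [hbdef]
      linarith
    obtain ⟨D, hD⟩ : ∃ D : ℝ, D = Lv * (B * b) + b * (B * Lu) := ⟨_, rfl⟩
    have D0 : 0 ≤ D := by rw [hD]; positivity
    have hη' : 0 < η / (2 * (b ^ 2 + 1)) := by positivity
    have hC'' : 0 < ((Lψ : ℝ) + 1) * C' := by
      have := Lψ.coe_nonneg
      positivity
    obtain ⟨ρM, hρM0, hρM⟩ := hMod (((Lψ : ℝ) + 1) * C') hC'' (η / (2 * (b ^ 2 + 1))) hη'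
    refine ⟨min ρM (min (q / C') (η / (2 * (D * C' + 1)))),
      lt_min hρM0 (lt_min (by positivity) (by positivity)), ?_⟩
    intro ρ hρ0 hρ z z' hz hz' hzz i
    have hρa : ρ ≤ ρM := hρ.trans (min_le_left _ _)
    have hρb : ρ ≤ q / C' := hρ.trans ((min_le_right _ _).trans (min_le_left _ _))
    have hρc : ρ ≤ η / (2 * (D * C' + 1)) :=
      hρ.trans ((min_le_right _ _).trans (min_le_right _ _))
    have hCq : C' * ρ ≤ q := by
      rw [le_div_iff₀ hC'] at hρb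
      linarith
    have hzb : z ∈ Metric.closedBall z0 q := by
      rw [Metric.mem_closedBall, dist_eq_norm]
      exact hz.trans hCq
    have hzb' : z' ∈ Metric.closedBall z0 q := by
      rw [Metric.mem_closedBall, dist_eq_norm]
      exact hz'.trans hCq
    have hLψ := Lψ.coe_nonneg
    have hpr : 0 ≤ ρ ^ r := pow_nonneg hρ0.le _
    have hpr1 : 0 ≤ ρ ^ (r - 1) := pow_nonneg hρ0.le _
    have hprr : ρ ^ r = ρ * ρ ^ (r - 1) := by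
      obtain ⟨s, rfl⟩ := Nat.exists_eq_add_of_le' hr1
      rw [Nat.add_sub_cancel, pow_succ']
    have e1 : ‖c.ψ z - c.ψ z0‖ ≤ ((Lψ : ℝ) + 1) * C' * ρ := by
      refine (hψL z hzb z0 hz0b).trans ?_
      calc (Lψ : ℝ) * ‖z - z0‖ ≤ Lψ * (C' * ρ) := mul_le_mul_of_nonneg_left hz hLψ
        _ ≤ ((Lψ : ℝ) + 1) * C' * ρ := by nlinarith [mul_pos hC' hρ0]
    have e2 : ‖c.ψ z' - c.ψ z0‖ ≤ ((Lψ : ℝ) + 1) * C' * ρ := by
      refine (hψL z' hzb' z0 hz0b).trans ?_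
      calc (Lψ : ℝ) * ‖z' - z0‖ ≤ Lψ * (C' * ρ) := mul_le_mul_of_nonneg_left hz' hLψ
        _ ≤ ((Lψ : ℝ) + 1) * C' * ρ := by nlinarith [mul_pos hC' hρ0]
    have e3 : ‖c.ψ z - c.ψ z'‖ ≤ ((Lψ : ℝ) + 1) * C' * ρ ^ r := by
      refine (hψL z hzb z' hzb').trans ?_
      calc (Lψ : ℝ) * ‖z - z'‖ ≤ Lψ * (C' * ρ ^ r) := mul_le_mul_of_nonneg_left hzz hLψ
        _ ≤ ((Lψ : ℝ) + 1) * C' * ρ ^ r := by nlinarith [mul_nonneg hC'.le hpr]
    have e4 := hρM ρ hρ0 hρa (c.ψ z) (hmem z (hq hzb).1.1.1.1) (c.ψ z')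
      (hmem z' (hq hzb').1.1.1.1) e1 e2 e3 i
    have h1 := k1_norm (fderiv ℝ c.ψ z) (fderiv ℝ c.ψ z') (fderiv ℝ c.φ (c.ψ z))
      (fderiv ℝ c.φ (c.ψ z')) (P i (c.ψ z)) (P i (c.ψ z')) b0 B0 (hUB z hzb) (hVB z' hzb')
      ((hq hzb).2 i) ((hq hzb').2 i) (hVL z hzb z' hzb') e4 (hUL z hzb z' hzb')
      (mul_nonneg Lv.coe_nonneg (norm_nonneg _))
      (mul_nonneg hη'.le hpr1)
    have h2 : b * (η / (2 * (b ^ 2 + 1)) * ρ ^ (r - 1) * b) ≤ η / 2 * ρ ^ (r - 1) := by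
      have h3 : b ^ 2 * (η / (2 * (b ^ 2 + 1))) ≤ η / 2 := by
        rw [← mul_div_assoc, div_le_div_iff₀ (by positivity) (by norm_num)]
        nlinarith
      calc b * (η / (2 * (b ^ 2 + 1)) * ρ ^ (r - 1) * b)
          = b ^ 2 * (η / (2 * (b ^ 2 + 1))) * ρ ^ (r - 1) := by ring
        _ ≤ _ := mul_le_mul_of_nonneg_right h3 hpr1
    have h4 : D * ‖z - z'‖ ≤ η / 2 * ρ ^ (r - 1) := by
      have h5 : D * C' * ρ ≤ η / 2 := by
        rw [le_div_iff₀ (by positivity)] at hρc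
        nlinarith [mul_nonneg D0 hC'.le]
      calc D * ‖z - z'‖ ≤ D * (C' * ρ ^ r) := mul_le_mul_of_nonneg_left hzz D0
        _ = D * C' * ρ * ρ ^ (r - 1) := by rw [hprr]; ring
        _ ≤ _ := mul_le_mul_of_nonneg_right h5 hpr1
    have h6 : (Lv : ℝ) * ‖z - z'‖ * (B * b) + b * (B * (Lu * ‖z - z'‖)) = D * ‖z - z'‖ := by
      rw [hD]
      ring
    change ‖(fderiv ℝ c.φ (c.ψ z)) ∘L (P i (c.ψ z)) ∘L (fderiv ℝ c.ψ z) -
      (fderiv ℝ c.φ (c.ψ z')) ∘L (P i (c.ψ z')) ∘L (fderiv ℝ c.ψ z')‖ ≤ _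
    linarith

end Pool.Agent.Helper23.RZ
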